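import Mathlib
import Pool.Agent.Results.MP_cb6225_lc.NotExpressible

set_option autoImplicit false

/-!
# Word equations with constraints of subexponential growth
-/

namespace Pool.Agent.Y626.WE

open Pool.Agent.Results.MP_cb6225_lc.NotExpressible (Term eval linVal swap Cross NoOv Good sw sw_nil
  sw_s sw_t sw_cons sw_induction sw_length sw_append sw_inj evalFrom_sw Fam eval_sw ex sw_flatten
  flatten_inj findIdx_run)

/-- Subexponential growth: for every `m` and all large `l`, the words of length `l` have at most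
`2 ^ (l / m)` different images. -/
def Subexp {α M : Type} (F : List α → M) : Prop :=
  ∀ m : ℕ, ∀ᶠ l in Filter.atTop, (Set.ncard (F '' {w : List α | w.length = l})) ^ m ≤ 2 ^ l

/-- Quantifier-free formulas: Boolean combinations of word equations, regular constraints, linear
equalities and inequalities over lengths of variables, and arbitrary conditions on the images of
the variables under a homomorphism of subexponential growth. -/
inductive Formula (α : Type) : Type 1
  | weq (U V : Term α) : Formula α
  | reg (x : ℕ) (R : Language α) (hR : R.IsRegular) : Formula α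
  | lenLe (c : List (ℤ × ℕ)) (d : ℤ) : Formula α
  | lenEq (c : List (ℤ × ℕ)) (d : ℤ) : Formula α
  | hom (M : Type) (op : M → M → M) (F : List α → M) (hF : ∀ u v, F (u ++ v) = op (F u) (F v))
      (hs : Subexp F) (P : (ℕ → M) → Prop) : Formula α
  | not (f : Formula α) : Formula α
  | and (f g : Formula α) : Formula α
  | or (f g : Formula α) : Formula α

/-- Satisfaction of a formula by an assignment. -/
def Sat {α : Type} (h : ℕ → List α) : Formula α → Prop
  | .weq U V => eval h U = eval h V
  | .reg x R _ => h x ∈ R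
  | .lenLe c d => linVal h c ≤ d
  | .lenEq c d => linVal h c = d
  | .hom _ _ F _ _ P => P (fun x => F (h x))
  | .not f => ¬ Sat h f
  | .and f g => Sat h f ∧ Sat h g
  | .or f g => Sat h f ∨ Sat h g

/-- The language `S(f,x)` of all values of `x` in satisfying assignments of `f`. -/
def S {α : Type} (f : Formula α) (x : ℕ) : Set (List α) :=
  {w | ∃ h : ℕ → List α, Sat h f ∧ h x = w}

section growth

variable {α : Type} [Finite α]

theorem fin_len (l : ℕ) : {w : List α | w.length = l}.Finite := List.finite_length_eq α l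

theorem Subexp.prod {M N : Type} {F : List α → M} {G : List α → N} (hF : Subexp F)
    (hG : Subexp G) : Subexp (fun w => (F w, G w)) := by
  intro m
  filter_upwards [hF (2 * m), hG (2 * m)] with l h1 h2
  have h3 : Set.ncard ((fun w => (F w, G w)) '' {w : List α | w.length = l}) ≤
      Set.ncard (F '' {w : List α | w.length = l}) * Set.ncard (G '' {w : List α | w.length = l}) := by
    rw [← Set.ncard_prod]
    refine Set.ncard_le_ncard ?_ (((fin_len l).image F).prod ((fin_len l).image G))
    rintro _ ⟨w, hw, rfl⟩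
    exact ⟨⟨w, hw, rfl⟩, ⟨w, hw, rfl⟩⟩
  set a := Set.ncard (F '' {w : List α | w.length = l})
  set b := Set.ncard (G '' {w : List α | w.length = l})
  have h4 : (a * b) ^ m ≤ 2 ^ l := by
    have h5 : ((a * b) ^ m) ^ 2 ≤ (2 ^ l) ^ 2 := by
      have h6 : ((a * b) ^ m) ^ 2 = a ^ (2 * m) * b ^ (2 * m) := by
        rw [← pow_mul, mul_comm m 2, mul_pow]
      rw [h6, pow_two]
      exact Nat.mul_le_mul h1 h2
    exact (Nat.pow_le_pow_iff_left (by norm_num)).1 h5
  exact (Nat.pow_le_pow_left h3 m).trans h4

theorem subexp_of_bound {M : Type} {F : List α → M} (B : ℕ)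
    (h : ∀ l, Set.ncard (F '' {w : List α | w.length = l}) ≤ B) : Subexp F := by
  intro m
  have h1 : ∀ᶠ l in Filter.atTop, B ^ m ≤ 2 ^ l := by
    filter_upwards [Filter.eventually_ge_atTop (B ^ m)] with l hl
    exact hl.trans (Nat.lt_two_pow_self (n := l)).le
  filter_upwards [h1] with l hl
  exact (Nat.pow_le_pow_left (h l) m).trans hl

theorem subexp_finite {M : Type} [Finite M] (F : List α → M) : Subexp F := by
  refine subexp_of_bound (Nat.card M) fun l => ?_
  exact Set.ncard_le_card _

end growth

section main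

variable {α : Type} [DecidableEq α] {s t : List α}

theorem hom_sw (hg : Good s t) {M : Type} (op : M → M → M) (F : List α → M)
    (hF : ∀ u v, F (u ++ v) = op (F u) (F v)) (he : F s = F t) (w : List α) :
    F (sw s t w) = F w := by
  refine sw_induction hg (P := fun w => F (sw s t w) = F w) ?_ ?_ ?_ ?_ w
  · rw [sw_nil hg]
  · intro w ih; rw [sw_s hg, hF, hF, ih, he]
  · intro w ih; rw [sw_t hg, hF, hF, ih, he]
  · intro a w h1 h2 ih
    rw [sw_cons hg a w h1 h2]
    have e1 : a :: sw s t w = [a] ++ sw s t w := rfl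
    have e2 : a :: w = [a] ++ w := rfl
    rw [e1, e2, hF, hF, ih]

theorem sat_sw [Finite α] (f : Formula α) : ∃ (N : ℕ) (T : Type) (c : List α → T), Subexp c ∧
    ∀ (C : Set (List α)) (l : ℕ), Fam C l → ∀ h : ℕ → List α, ∃ Bad : Finset (List α),
      Bad.card ≤ N ∧ ∀ s ∈ C, ∀ t ∈ C, s ∉ Bad → t ∉ Bad → s ≠ t → c s = c t →
        (Sat (fun x => sw s t (h x)) f ↔ Sat h f) := by
  induction f with
  | weq U V =>
    refine ⟨U.length + V.length, Unit, fun _ => (), subexp_finite _, ?_⟩
    intro C l hC h
    obtain ⟨B1, hB1, h1⟩ := eval_sw hC h U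
    obtain ⟨B2, hB2, h2⟩ := eval_sw hC h V
    refine ⟨B1 ∪ B2, (Finset.card_union_le _ _).trans (by omega), ?_⟩
    intro s hs t ht hs' ht' hne _
    rw [Finset.mem_union, not_or] at hs' ht'
    simp only [Sat]
    rw [h1 s hs t ht hs'.1 ht'.1 hne, h2 s hs t ht hs'.2 ht'.2 hne]
    exact ⟨fun e => sw_inj (hC.good hs ht hne) e, fun e => by rw [e]⟩
  | reg x R hR =>
    obtain ⟨σ, hσ, M, hM⟩ := hR
    refine ⟨0, σ → σ, fun w q => M.evalFrom q w, subexp_finite _, ?_⟩
    intro C l hC h
    refine ⟨∅, by simp, ?_⟩
    intro s hs t ht _ _ hne hc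
    simp only [Sat, ← hM, DFA.mem_accepts, DFA.eval,
      evalFrom_sw (hC.good hs ht hne) M (fun q => congrFun hc q)]
  | lenLe c d =>
    refine ⟨0, Unit, fun _ => (), subexp_finite _, ?_⟩
    intro C l hC h
    refine ⟨∅, by simp, ?_⟩
    intro s hs t ht _ _ hne _
    have e : linVal (fun x => sw s t (h x)) c = linVal h c := by
      simp [linVal, sw_length (hC.good hs ht hne)]
    simp only [Sat, e]
  | lenEq c d =>
    refine ⟨0, Unit, fun _ => (), subexp_finite _, ?_⟩
    intro C l hC h
    refine ⟨∅, by simp, ?_⟩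
    intro s hs t ht _ _ hne _
    have e : linVal (fun x => sw s t (h x)) c = linVal h c := by
      simp [linVal, sw_length (hC.good hs ht hne)]
    simp only [Sat, e]
  | hom M op F hF hs P =>
    refine ⟨0, M, F, hs, ?_⟩
    intro C l hC h
    refine ⟨∅, by simp, ?_⟩
    intro s hs t ht _ _ hne he
    simp only [Sat, hom_sw (hC.good hs ht hne) op F hF he]
  | not f ih =>
    obtain ⟨N, T, c, hT, hc⟩ := ih
    refine ⟨N, T, c, hT, ?_⟩
    intro C l hC h
    obtain ⟨Bad, hB, hBad⟩ := hc C l hC h
    refine ⟨Bad, hB, ?_⟩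
    intro s hs t ht hs' ht' hne e
    simp only [Sat]
    rw [hBad s hs t ht hs' ht' hne e]
  | and f g ihf ihg =>
    obtain ⟨N, T, c, hT, hc⟩ := ihf
    obtain ⟨N', T', c', hT', hc'⟩ := ihg
    refine ⟨N + N', T × T', fun w => (c w, c' w), hT.prod hT', ?_⟩
    intro C l hC h
    obtain ⟨Bad, hB, hBad⟩ := hc C l hC h
    obtain ⟨Bad', hB', hBad'⟩ := hc' C l hC h
    refine ⟨Bad ∪ Bad', (Finset.card_union_le _ _).trans (by omega), ?_⟩
    intro s hs t ht hs' ht' hne e
    rw [Finset.mem_union, not_or] at hs' ht'
    rw [Prod.mk.injEq] at e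
    simp only [Sat]
    rw [hBad s hs t ht hs'.1 ht'.1 hne e.1, hBad' s hs t ht hs'.2 ht'.2 hne e.2]
  | or f g ihf ihg =>
    obtain ⟨N, T, c, hT, hc⟩ := ihf
    obtain ⟨N', T', c', hT', hc'⟩ := ihg
    refine ⟨N + N', T × T', fun w => (c w, c' w), hT.prod hT', ?_⟩
    intro C l hC h
    obtain ⟨Bad, hB, hBad⟩ := hc C l hC h
    obtain ⟨Bad', hB', hBad'⟩ := hc' C l hC h
    refine ⟨Bad ∪ Bad', (Finset.card_union_le _ _).trans (by omega), ?_⟩
    intro s hs t ht hs' ht' hne e
    rw [Finset.mem_union, not_or] at hs' ht'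
    rw [Prod.mk.injEq] at e
    simp only [Sat]
    rw [hBad s hs t ht hs'.1 ht'.1 hne e.1, hBad' s hs t ht hs'.2 ht'.2 hne e.2]

/-- All words of length `K` over the two letters `a`, `b`. -/
def words (a b : α) : ℕ → List (List α)
  | 0 => [[]]
  | K + 1 => (words a b K).map (List.cons a) ++ (words a b K).map (List.cons b)

/-- The words `a^(K+2) b u b`. -/
def tok (a b : α) (K : ℕ) (u : List α) : List α :=
  List.replicate (K + 2) a ++ (b :: (u ++ [b]))

/-- The concatenation of the words `tok K u`, `u` of length `K` over `a`, `b`. -/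
def W (a b : α) (K : ℕ) : List α := ((words a b K).map (tok a b K)).flatten

omit [DecidableEq α] in
theorem words_len (a b : α) : ∀ K, ∀ u ∈ words a b K, u.length = K := by
  intro K
  induction K with
  | zero => intro u hu; simp [words] at hu; simp [hu]
  | succ K ih =>
    intro u hu
    rw [words, List.mem_append, List.mem_map, List.mem_map] at hu
    rcases hu with ⟨v, hv, rfl⟩ | ⟨v, hv, rfl⟩ <;> simp [ih v hv]

omit [DecidableEq α] in
theorem words_card (a b : α) : ∀ K, (words a b K).length = 2 ^ K := by
  intro K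
  induction K with
  | zero => rfl
  | succ K ih => rw [words, List.length_append, List.length_map, List.length_map, ih]; ring

omit [DecidableEq α] in
theorem words_nodup {a b : α} (hab : a ≠ b) : ∀ K, (words a b K).Nodup := by
  intro K
  induction K with
  | zero => simp [words]
  | succ K ih =>
    rw [words, List.nodup_append]
    refine ⟨ih.map (List.cons_injective), ih.map (List.cons_injective), ?_⟩
    intro x hx y hy
    rw [List.mem_map] at hx hy
    obtain ⟨u, _, rfl⟩ := hx
    obtain ⟨v, _, rfl⟩ := hy
    intro h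
    rw [List.cons.injEq] at h
    exact hab h.1

omit [DecidableEq α] in
theorem tok_length (a b : α) {K : ℕ} {u : List α} (h : u.length = K) :
    (tok a b K u).length = 2 * K + 4 := by
  simp [tok, h]; omega

omit [DecidableEq α] in
theorem tok_a (a b : α) {K m : ℕ} (u : List α) (h : m < K + 2) : (tok a b K u)[m]? = some a := by
  rw [tok, List.getElem?_append_left (by simpa using h)]
  simp [h]

omit [DecidableEq α] in
theorem tok_b (a b : α) (K : ℕ) (u : List α) : (tok a b K u)[K + 2]? = some b := by
  rw [tok, List.getElem?_append_right (by simp)]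
  simp

omit [DecidableEq α] in
theorem tok_last (a b : α) {K : ℕ} {u : List α} (h : u.length = K) :
    (tok a b K u)[2 * K + 3]? = some b := by
  have e : tok a b K u = (List.replicate (K + 2) a ++ (b :: u)) ++ [b] := by simp [tok]
  rw [e, List.getElem?_append_right (by simp; omega)]
  have e2 : 2 * K + 3 - (List.replicate (K + 2) a ++ (b :: u)).length = 0 := by simp; omega
  rw [e2]; rfl

omit [DecidableEq α] in
theorem tok_noOv {a b : α} (hab : a ≠ b) {K : ℕ} {u v : List α} (hu : u.length = K)
    (hv : v.length = K) : NoOv (tok a b K u) (tok a b K v) := by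
  rintro p q hp hq e ⟨r, hr⟩
  have hl := tok_length a b hu
  have hp' : 0 < p.length := List.length_pos_of_ne_nil hp
  have hq' : 0 < q.length := List.length_pos_of_ne_nil hq
  have hl2 : p.length + q.length = 2 * K + 4 := by rw [← hl, e, List.length_append]
  have hqa : ∀ m, m < q.length → m < K + 2 → q[m]? = some a := by
    intro m h1 h2
    have := tok_a a b (K := K) v h2
    rwa [← hr, List.getElem?_append_left h1] at this
  rcases le_or_gt q.length (K + 2) with h | h
  · have h1 := hqa (q.length - 1) (by omega) (by omega)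
    have h2 := tok_last a b hu
    rw [e, List.getElem?_append_right (by omega)] at h2
    have h3 : 2 * K + 3 - p.length = q.length - 1 := by omega
    rw [h3, h1] at h2
    exact hab (Option.some.inj h2)
  · have h1 := hqa (K + 2 - p.length) (by omega) (by omega)
    have h2 := tok_b a b K u
    rw [e, List.getElem?_append_right (by omega), h1] at h2
    exact hab (Option.some.inj h2)

omit [DecidableEq α] in
theorem tok_inj {a b : α} {K : ℕ} {u v : List α} (h : tok a b K u = tok a b K v) : u = v := by
  unfold tok at h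
  have h1 := (List.append_cancel_left h)
  rw [List.cons.injEq] at h1
  exact List.append_cancel_right h1.2

omit [DecidableEq α] in
theorem fam_tok {a b : α} (hab : a ≠ b) (K : ℕ) :
    Fam {w | ∃ u ∈ words a b K, w = tok a b K u} (2 * K + 4) where
  two := by omega
  len := by rintro s ⟨u, hu, rfl⟩; exact tok_length a b (words_len a b K u hu)
  ov := by
    rintro s ⟨u, hu, rfl⟩ t ⟨v, hv, rfl⟩
    exact tok_noOv hab (words_len a b K u hu) (words_len a b K v hv)

omit [DecidableEq α] in
theorem W_length (a b : α) (K : ℕ) : (W a b K).length = 2 ^ K * (2 * K + 4) := by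
  rw [W, List.length_flatten, List.map_map]
  have : (words a b K).map (List.length ∘ tok a b K) =
      (words a b K).map (fun _ => 2 * K + 4) := by
    apply List.map_congr_left
    intro u hu
    exact tok_length a b (words_len a b K u hu)
  rw [this, List.map_const', List.sum_replicate, words_card]
  simp

omit [DecidableEq α] in
theorem W_len_mono (a b : α) {K K' : ℕ} (h : K < K') : (W a b K).length < (W a b K').length := by
  rw [W_length, W_length]
  exact Nat.mul_lt_mul_of_le_of_lt (Nat.pow_le_pow_right (by norm_num) h.le) (by omega)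
    (by positivity)

omit [DecidableEq α] in
theorem W_inj {a b : α} {K K' : ℕ} (h : (W a b K).length = (W a b K').length) : K = K' := by
  rcases lt_trichotomy K K' with h1 | h1 | h1
  · exact absurd h (W_len_mono a b h1).ne
  · exact h1
  · exact absurd h (W_len_mono a b h1).ne'

/-- The language. -/
def Lang (a b : α) : Set (List α) := {w | ∃ K, w = W a b K}

omit [DecidableEq α] in
theorem lang_infinite (a b : α) : (Lang a b).Infinite := by
  have h : Function.Injective (W a b) := fun K K' e => W_inj (by rw [e])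
  refine (Set.infinite_range_of_injective h).mono ?_
  rintro _ ⟨K, rfl⟩
  exact ⟨K, rfl⟩

/-- If `f` allows `W K` for `x`, where `K` is large, it allows a word outside `Lang`. -/
theorem lang_immune [Finite α] {a b : α} (hab : a ≠ b) (f : Formula α) (x : ℕ) :
    ∀ᶠ K in Filter.atTop, W a b K ∈ S f x → ¬ S f x ⊆ Lang a b := by
  obtain ⟨N, T, c, hT, hc⟩ := sat_sw f
  have ht : Filter.Tendsto (fun K : ℕ => 2 * K + 4) Filter.atTop Filter.atTop :=
    Filter.tendsto_atTop_mono (fun K => (show K ≤ 2 * K + 4 by omega)) Filter.tendsto_id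
  filter_upwards [ht.eventually (hT 4), Filter.eventually_ge_atTop (2 * N + 20)] with K hgr hKN
  intro hmem hL
  obtain ⟨h, hsat, hx⟩ := hmem
  set C : Set (List α) := {w | ∃ u ∈ words a b K, w = tok a b K u} with hCdef
  have hC : Fam C (2 * K + 4) := fam_tok hab K
  obtain ⟨Bad, hB, hBad⟩ := hc C _ hC h
  set A : Finset (List α) := (words a b K).toFinset.image (tok a b K) with hA
  have hAc : A.card = 2 ^ K := by
    rw [hA, Finset.card_image_of_injective _ (fun u v e => tok_inj e),
      List.toFinset_card_of_nodup (words_nodup hab K), words_card]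
  set g := Set.ncard (c '' {w : List α | w.length = 2 * K + 4}) with hgdef
  have hg2 : g ^ 2 ≤ 4 * 2 ^ K := by
    have h1 : (g ^ 2) ^ 2 ≤ (4 * 2 ^ K) ^ 2 := by
      have e1 : (g ^ 2) ^ 2 = g ^ 4 := by rw [← pow_mul]
      have e2 : (4 * 2 ^ K) ^ 2 = 2 ^ (2 * K + 4) := by ring
      rw [e1, e2]; exact hgr
    exact (Nat.pow_le_pow_iff_left (by norm_num)).1 h1
  have hK2 : 2 * N + 20 < 2 ^ K := lt_of_le_of_lt hKN Nat.lt_two_pow_self
  have hNg : N + g < 2 ^ K := by
    by_contra hcon
    push Not at hcon
    have h1 : 2 ^ K ≤ 2 * g := by omega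
    have h2 : (2 ^ K) * (2 ^ K) ≤ (2 * g) * (2 * g) := Nat.mul_le_mul h1 h1
    have h3 : (2 ^ K) * (2 ^ K) ≤ 16 * 2 ^ K := by nlinarith
    have h4 : 2 ^ K ≤ 16 := Nat.le_of_mul_le_mul_right h3 (by positivity)
    omega
  have hAB : g < ((A \ Bad : Finset (List α)) : Set (List α)).ncard := by
    rw [Set.ncard_coe_finset]
    have := Finset.le_card_sdiff Bad A
    omega
  have hmemC : ∀ s ∈ A, s ∈ C := by
    intro s hs
    rw [hA, Finset.mem_image] at hs
    obtain ⟨u, hu, rfl⟩ := hs
    exact ⟨u, List.mem_toFinset.1 hu, rfl⟩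
  obtain ⟨s, hs, t, ht, hne, hst⟩ := Set.exists_ne_map_eq_of_ncard_lt_of_maps_to hAB
    (f := c) (fun w hw => by
      have hw' : w ∈ A := (Finset.mem_sdiff.1 (Finset.mem_coe.1 hw)).1
      exact ⟨w, hC.len w (hmemC w hw'), rfl⟩) ((fin_len _).image c)
  rw [Finset.mem_coe, Finset.mem_sdiff] at hs ht
  have hsC : s ∈ C := hmemC s hs.1
  have htC : t ∈ C := hmemC t ht.1
  have hsat' := (hBad s hsC t htC hs.2 ht.2 hne hst).2 hsat
  have hmem' : sw s t (W a b K) ∈ Lang a b := hL ⟨_, hsat', by rw [hx]⟩
  obtain ⟨K', hK'⟩ := hmem'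
  have hlen := sw_length (hC.good hsC htC hne) (W a b K)
  rw [hK'] at hlen
  have hKK := W_inj hlen
  rw [hKK] at hK'
  have hmap : ∀ r ∈ (words a b K).map (tok a b K), r ∈ C := by
    intro r hr
    rw [List.mem_map] at hr
    obtain ⟨i, hi, rfl⟩ := hr
    exact ⟨i, hi, rfl⟩
  rw [W, sw_flatten hC hsC htC hne _ hmap] at hK'
  have hex : ∀ r ∈ C, ex s t r ∈ C := by
    intro r hr
    unfold ex
    split_ifs
    · exact htC
    · exact hsC
    · exact hr
  have hfin := flatten_inj (l := 2 * K + 4) (by omega) _ _ (by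
    intro r hr
    rw [List.mem_map] at hr
    obtain ⟨r', hr', rfl⟩ := hr
    exact hC.len _ (hex _ (hmap _ hr'))) (fun r hr => hC.len _ (hmap r hr)) hK'
  have hfix : ex s t s = s := by
    have h1 : ∀ r ∈ (words a b K).map (tok a b K), ex s t r = r := by
      have : (List.map (tok a b K) (words a b K)).map (ex s t) =
          (List.map (tok a b K) (words a b K)).map id := by rw [hfin, List.map_id]
      exact fun r hr => List.map_inj_left.mp this r hr
    refine h1 s ?_
    obtain ⟨i, hi, rfl⟩ := hsC
    rw [List.mem_map]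
    exact ⟨i, hi, rfl⟩
  rw [ex, if_pos rfl] at hfix
  exact hne hfix.symm

/-- Every expressible subset of `Lang` is finite. -/
theorem lang_fin [Finite α] {a b : α} (hab : a ≠ b) (f : Formula α) (x : ℕ)
    (h : S f x ⊆ Lang a b) : (S f x).Finite := by
  obtain ⟨K0, hK0⟩ := Filter.eventually_atTop.1 (lang_immune hab f x)
  refine Set.Finite.subset ((Set.finite_lt_nat K0).image (W a b)) ?_
  intro w hw
  obtain ⟨K, rfl⟩ := h hw
  refine ⟨K, ?_, rfl⟩
  by_contra hK
  exact hK0 K (not_lt.1 hK) hw h

end main

section comp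

variable {α : Type} [Primcodable α] [DecidableEq α]

theorem primrec_tok (a b : α) : Primrec₂ (tok a b) := by
  have hr : Primrec (fun n : ℕ => (List.range n).map (fun _ => a)) :=
    Primrec.list_map Primrec.list_range (Primrec.const a).to₂
  have h1 : Primrec₂ (fun (K : ℕ) (_ : List α) => (List.range (K + 2)).map (fun _ => a)) :=
    (hr.comp (Primrec.nat_add.comp Primrec.fst (Primrec.const 2))).to₂
  have h2 : Primrec₂ (fun (_ : ℕ) (u : List α) => b :: (u ++ [b])) :=
    (Primrec.list_cons.comp (Primrec.const b)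
      (Primrec.list_append.comp Primrec.snd (Primrec.const [b]))).to₂
  have h4 : Primrec₂ (fun (K : ℕ) (u : List α) => (List.range (K + 2)).map (fun _ => a) ++
      (b :: (u ++ [b]))) := Primrec.list_append.comp₂ h1 h2
  exact h4.of_eq (fun K u => by simp [tok])

theorem primrec_words (a b : α) : Primrec (words a b) := by
  have hs : Primrec₂ (fun (_ : ℕ) (l : List (List α)) =>
      l.map (List.cons a) ++ l.map (List.cons b)) := by
    refine Primrec.list_append.comp₂ ?_ ?_
    · exact (Primrec.list_map Primrec.snd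
        (Primrec.list_cons.comp (Primrec.const a) Primrec.snd).to₂).to₂
    · exact (Primrec.list_map Primrec.snd
        (Primrec.list_cons.comp (Primrec.const b) Primrec.snd).to₂).to₂
  refine (Primrec.nat_rec₁ ([[]] : List (List α)) hs).of_eq fun K => ?_
  induction K with
  | zero => rfl
  | succ K ih => rw [words, ← ih]

theorem primrec_W (a b : α) : Primrec (W a b) :=
  Primrec.list_flatten.comp (Primrec.list_map (primrec_words a b) (primrec_tok a b))

theorem mem_lang_iff {a b : α} (hab : a ≠ b) (w : List α) :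
    w ∈ Lang a b ↔ w = W a b (w.findIdx (fun c => decide (c ≠ a)) - 2) := by
  constructor
  · rintro ⟨K, rfl⟩
    have e : ∃ X, W a b K = List.replicate (K + 2) a ++ b :: X := by
      obtain ⟨u, L, hL⟩ : ∃ u L, words a b K = u :: L := by
        cases h : words a b K with
        | nil =>
          have := words_card a b K
          rw [h] at this
          exact absurd this.symm (pow_ne_zero _ two_ne_zero)
        | cons u L => exact ⟨u, L, rfl⟩
      refine ⟨(u ++ [b]) ++ (L.map (tok a b K)).flatten, ?_⟩
      rw [W, hL]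
      simp [tok]
    obtain ⟨X, hX⟩ := e
    conv_rhs => rw [hX, findIdx_run hab]
    rfl
  · intro h
    exact ⟨_, h⟩

theorem lang_primrec {a b : α} (hab : a ≠ b) : PrimrecPred (fun w => w ∈ Lang a b) := by
  have h1 : Primrec (fun w : List α => w.findIdx (fun c => decide (c ≠ a))) :=
    Primrec.list_findIdx Primrec.id
      ((PrimrecPred.not (Primrec.eq.comp Primrec.snd (Primrec.const a))).decide.to₂)
  have h2 : Primrec (fun w : List α => W a b (w.findIdx (fun c => decide (c ≠ a)) - 2)) :=
    (primrec_W a b).comp (Primrec.nat_sub.comp h1 (Primrec.const 2))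
  have h3 : PrimrecPred (fun w : List α => w = W a b (w.findIdx (fun c => decide (c ≠ a)) - 2)) :=
    Primrec.eq.comp Primrec.id h2
  exact h3.of_eq (fun w => (mem_lang_iff hab w).symm)

end comp

end Pool.Agent.Y626.WE
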